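import Pool.Agent.helper96.LK.SpecH

set_option autoImplicit false

/-! Module `PTS` of project lk (MP_940ffa_an): the points of the index sets. -/

open Finset Filter

namespace Pool.Agent.LK

theorem PTS_A (a dl : ℤ) (ha : 11 ≤ a) (h0 : 0 ≤ dl) (h1 : dl ≤ 1) (I J i k : ℤ)
    (hP : isB a dl (I, J)) (ho : (i, k) ∈ LA a dl (I, J)) :
    0 ≤ I + i * a + k ∧ 0 ≤ J + i + k * a ∧ 1 ≤ (I + i * a + k) + (J + i + k * a) ∧
      (I + i * a + k) + (J + i + k * a) ≤ 2 * a + 4 + dl := by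
  unfold LA at ho
  by_cases hS : isS dl (I, J)
  · rw [if_pos hS] at ho
    simp only [mem_insert, mem_singleton, Prod.mk.injEq] at ho
    simp only [isS] at hS
    rcases ho with ⟨rfl, rfl⟩ | ⟨rfl, rfl⟩ | ⟨rfl, rfl⟩ | ⟨rfl, rfl⟩ | ⟨rfl, rfl⟩ <;> omega
  rw [if_neg hS] at ho
  by_cases hT : isT a dl (I, J)
  · rw [if_pos hT] at ho
    simp only [mem_insert, mem_singleton, Prod.mk.injEq] at ho
    simp only [isT] at hT
    rcases ho with ⟨rfl, rfl⟩ | ⟨rfl, rfl⟩ | ⟨rfl, rfl⟩ <;> omega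
  rw [if_neg hT] at ho
  by_cases hU : isU a dl (I, J)
  · rw [if_pos hU] at ho
    simp only [mem_insert, mem_singleton, Prod.mk.injEq] at ho
    simp only [isU] at hU
    rcases ho with ⟨rfl, rfl⟩ | ⟨rfl, rfl⟩ | ⟨rfl, rfl⟩ | ⟨rfl, rfl⟩ <;> omega
  rw [if_neg hU] at ho
  by_cases hW : isW a dl (I, J)
  · rw [if_pos hW] at ho
    simp only [mem_insert, mem_singleton, Prod.mk.injEq] at ho
    simp only [isW] at hW
    rcases ho with ⟨rfl, rfl⟩ | ⟨rfl, rfl⟩ | ⟨rfl, rfl⟩ | ⟨rfl, rfl⟩ <;> omega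
  rw [if_neg hW] at ho
  by_cases hV : isV a dl (I, J)
  · rw [if_pos hV] at ho
    simp only [mem_insert, mem_singleton, Prod.mk.injEq] at ho
    simp only [isV] at hV
    rcases ho with ⟨rfl, rfl⟩ | ⟨rfl, rfl⟩ | ⟨rfl, rfl⟩ | ⟨rfl, rfl⟩ | ⟨rfl, rfl⟩ <;> omega
  rw [if_neg hV] at ho
  by_cases hQ : isQ a dl (I, J)
  · rw [if_pos hQ] at ho
    simp only [isQ] at hQ
    simp only [mem_union, mem_singleton, Prod.mk.injEq] at ho
    rcases ho with (⟨rfl, rfl⟩ | ho) | ho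
    · omega
    · split_ifs at ho with hc
      · simp only [mem_singleton, Prod.mk.injEq] at ho
        obtain ⟨rfl, rfl⟩ := ho
        omega
      · simp at ho
    · split_ifs at ho with hc
      · simp only [mem_singleton, Prod.mk.injEq] at ho
        obtain ⟨rfl, rfl⟩ := ho
        omega
      · simp at ho
  rw [if_neg hQ] at ho
  simp at ho

theorem PTS_L0 (I J i k : ℤ) (ho : (i, k) ∈ L0 (I, J)) :
    i = 0 ∧ k = 0 ∧ 1 ≤ I ∧ 1 ≤ J := by
  unfold L0 at ho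
  split_ifs at ho with h
  · simp only [mem_singleton, Prod.mk.injEq] at ho
    exact ⟨ho.1, ho.2, h.1, h.2⟩
  · simp at ho

theorem PTS_B (a dl : ℤ) (ha : 11 ≤ a) (h0 : 0 ≤ dl) (h1 : dl ≤ 1) (I J i k : ℤ)
    (ho : (i, k) ∈ LB a dl (I, J)) :
    1 ≤ I + i * a + k ∧ 1 ≤ J + i + k * a ∧
      (I + i * a + k) + (J + i + k * a) ≤ 2 * a + 4 + dl := by
  unfold LB at ho
  by_cases hS : isS dl (I, J)
  · rw [if_pos hS] at ho
    simp only [mem_insert, mem_singleton, Prod.mk.injEq] at ho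
    simp only [isS] at hS
    rcases ho with ⟨rfl, rfl⟩ | ⟨rfl, rfl⟩ | ⟨rfl, rfl⟩ <;> omega
  rw [if_neg hS] at ho
  by_cases hT : isT a dl (I, J) ∨ isU a dl (I, J) ∨ isW a dl (I, J)
  · rw [if_pos hT] at ho
    simp only [mem_union, mem_insert, mem_singleton, Prod.mk.injEq] at ho
    simp only [isT, isU, isW] at hT
    rcases ho with ho | ⟨rfl, rfl⟩ | ⟨rfl, rfl⟩
    · obtain ⟨rfl, rfl, h2, h3⟩ := PTS_L0 I J i k ho
      omega
    · omega
    · omega
  rw [if_neg hT] at ho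
  by_cases hV : isV a dl (I, J)
  · rw [if_pos hV] at ho
    simp only [mem_insert, mem_singleton, Prod.mk.injEq] at ho
    simp only [isV] at hV
    rcases ho with ⟨rfl, rfl⟩ | ⟨rfl, rfl⟩ | ⟨rfl, rfl⟩ <;> omega
  rw [if_neg hV] at ho
  by_cases hQ : isQ a dl (I, J)
  · rw [if_pos hQ] at ho
    simp only [isQ] at hQ
    simp only [mem_union] at ho
    rcases ho with ho | ho
    · obtain ⟨rfl, rfl, h2, h3⟩ := PTS_L0 I J i k ho
      omega
    · split_ifs at ho with hc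
      · simp only [mem_singleton, Prod.mk.injEq] at ho
        obtain ⟨rfl, rfl⟩ := ho
        omega
      · simp at ho
  rw [if_neg hQ] at ho
  simp at ho

theorem PTS : PTS_stmt := by
  intro a dl ha h0 h1
  constructor
  · rintro ⟨⟨I, J⟩, ⟨i, k⟩⟩ hu
    rw [mem_UA] at hu
    obtain ⟨hP, ho⟩ := hu
    rw [mem_BB ha h0 h1] at hP
    exact PTS_A a dl ha h0 h1 I J i k hP ho
  · rintro ⟨⟨I, J⟩, ⟨i, k⟩⟩ hu
    rw [mem_UB] at hu
    exact PTS_B a dl ha h0 h1 I J i k hu.2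

end Pool.Agent.LK
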